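import Pool.Agent.H15.Lev.SevenOf
import Pool.Agent.H15.Lev.T6a

/-!
Complex quadratic maps `ℂ^m → ℂ^7` without nonzero real values exist exactly for `m ≤ 4`.
-/

set_option autoImplicit false

namespace Pool.Agent.Results.MP_7fdaab_ag.SevenForms

/-- `m` is in `Good r` if there are `r` complex quadratic forms in `m` variables (a quadratic map
`φ : ℂ^m → ℂ^r`) whose values at a nonzero point are never all real. -/
def Good (r : ℕ) : Set ℕ :=
  {m | ∃ φ : Fin r → QuadraticForm ℂ (Fin m → ℂ), ∀ z, z ≠ 0 → ∃ j, (φ j z).im ≠ 0}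

/-- `m(7) = 4`. -/
theorem result : sSup (Good 7) = 4 :=
  (Pool.Agent.H15.Lev.Cx.main_of fun S hS A h1 h2 dg h3 h4 h5 =>
    Pool.Agent.H15.Lev.orient_alg S hS A h1 h2 dg h3 h4 h5).2.1

end Pool.Agent.Results.MP_7fdaab_ag.SevenForms
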